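import Mathlib

/-!
# Sub-Riemannian structures on `ℝ^ι`, exponential maps and conjugate covectors

The space `ℝ^ι` of the functions on a finite type `ι` is a connected manifold of dimension the
number of elements of `ι`, with global coordinates; a sub-Riemannian structure on it with a global
orthonormal frame is given by smooth vector fields `X i`.
-/

set_option autoImplicit false

open Set Filter Topology
open scoped ContDiff

noncomputable section

namespace Pool.Agent.KS6_65.CL

/-- `ℝ^ι`, for the points, the tangent vectors and the covectors. -/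
abbrev V (ι : Type) : Type := ι → ℝ

variable {ι κ : Type} [Fintype ι] [Fintype κ]

/-- The vector fields which are iterated brackets of the vector fields `X i`. -/
inductive IteratedBracket (X : κ → V ι → V ι) : (V ι → V ι) → Prop
  | field (i : κ) : IteratedBracket X (X i)
  | bracket {Y Z : V ι → V ι} : IteratedBracket X Y → IteratedBracket X Z →
      IteratedBracket X (VectorField.lieBracket ℝ Y Z)

/-- The vector fields `X i` are an orthonormal frame of a sub-Riemannian structure on `ℝ^ι`: they
are smooth, linearly independent at each point, and the distribution which they span is bracket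
generating. -/
structure IsSubRiemannian (X : κ → V ι → V ι) : Prop where
  smooth : ∀ i, ContDiff ℝ ∞ (X i)
  independent : ∀ q, LinearIndependent ℝ fun i => X i q
  generating : ∀ q, Submodule.span ℝ {v | ∃ Y, IteratedBracket X Y ∧ v = Y q} = ⊤

/-- The sub-Riemannian Hamiltonian, at the covector `p` at the point `q`. -/
def Ham (X : κ → V ι → V ι) (q p : V ι) : ℝ := 1 / 2 * ∑ i, (p ⬝ᵥ X i q) ^ 2

/-- `t ↦ (q t, p t)` is an integral curve, defined for all times, of the Hamiltonian vector field,
that is `dH (u, w) = w (q') - p' (u)`. -/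
def IsTrajectory (X : κ → V ι → V ι) (q p : ℝ → V ι) : Prop :=
  ∀ t, ∃ dq dp : V ι, HasDerivAt q dq t ∧ HasDerivAt p dp t ∧
    ∀ u w : V ι, fderiv ℝ (fun x : V ι × V ι => Ham X x.1 x.2) (q t, p t) (u, w) =
      w ⬝ᵥ dq - dp ⬝ᵥ u

/-- `e` is the sub-Riemannian exponential map at `q₀`, and it is defined on all of `T*_{q₀} M`: each
covector at `q₀` is the initial covector of a trajectory which is defined for all times, and `e`
maps it to the endpoint, at the time one, of each such trajectory. -/
def IsExp (X : κ → V ι → V ι) (q₀ : V ι) (e : V ι → V ι) : Prop :=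
  ∀ lam, (∃ q p : ℝ → V ι, IsTrajectory X q p ∧ q 0 = q₀ ∧ p 0 = lam) ∧
    ∀ q p : ℝ → V ι, IsTrajectory X q p → q 0 = q₀ → p 0 = lam → q 1 = e lam

/-- The conjugate locus, for the exponential map `e` at `q₀`. -/
def Conj (X : κ → V ι → V ι) (q₀ : V ι) (e : V ι → V ι) : Set (V ι) :=
  {lam | Ham X q₀ lam ≠ 0 ∧ ¬ Function.Bijective (fderiv ℝ e lam)}

/-- The regular conjugate locus: the conjugate covectors with a neighbourhood `U` such that every
straight line through `0` has at most one conjugate covector in `U`. -/
def Regular (X : κ → V ι → V ι) (q₀ : V ι) (e : V ι → V ι) : Set (V ι) :=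
  {lam | lam ∈ Conj X q₀ e ∧ ∃ U ∈ 𝓝 lam, ∀ v : V ι, v ≠ 0 →
    ∀ s t : ℝ, s • v ∈ Conj X q₀ e ∩ U → t • v ∈ Conj X q₀ e ∩ U → s • v = t • v}

end Pool.Agent.KS6_65.CL
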