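import Mathlib
import Pool.Agent.KS6_65.CL.Defs

/-!
# The product of `a` Heisenberg groups and a Euclidean space: the frame and the Hamiltonian
-/

set_option autoImplicit false

open Set Filter Topology
open scoped ContDiff

noncomputable section

namespace Pool.Agent.KS6_65.CL

/-- The coordinates `x i`, `y i`, `z i` of the `a` Heisenberg groups, and the coordinates `s l` of the
Euclidean space `ℝ^b`. -/
abbrev Cd (a b : ℕ) : Type := Fin a ⊕ Fin a ⊕ Fin a ⊕ Fin b

/-- The indices of the frame. -/
abbrev Fr (a b : ℕ) : Type := Fin a ⊕ Fin a ⊕ Fin b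

variable {a b : ℕ}

abbrev cx (i : Fin a) : Cd a b := Sum.inl i
abbrev cy (i : Fin a) : Cd a b := Sum.inr (Sum.inl i)
abbrev cz (i : Fin a) : Cd a b := Sum.inr (Sum.inr (Sum.inl i))
abbrev cs (l : Fin b) : Cd a b := Sum.inr (Sum.inr (Sum.inr l))

/-- The coordinate vector fields. -/
def E (m : Cd a b) : V (Cd a b) := Pi.single m 1

/-- The frame `∂x i - (y i / 2) ∂z i`, `∂y i + (x i / 2) ∂z i`, `∂s l`. -/
def frame (a b : ℕ) : Fr a b → V (Cd a b) → V (Cd a b)
  | Sum.inl i, q => E (cx i) - (q (cy i) / 2) • E (cz i)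
  | Sum.inr (Sum.inl i), q => E (cy i) + (q (cx i) / 2) • E (cz i)
  | Sum.inr (Sum.inr l), _ => E (cs l)

lemma dot_E (p : V (Cd a b)) (m : Cd a b) : p ⬝ᵥ E m = p m := by
  simp [E]

lemma ham_frame (q p : V (Cd a b)) : Ham (frame a b) q p =
    1 / 2 * (∑ i, ((p (cx i) - q (cy i) * p (cz i) * (1 / 2)) ^ 2 +
      (p (cy i) + q (cx i) * p (cz i) * (1 / 2)) ^ 2) + ∑ l, p (cs l) ^ 2) := by
  unfold Ham
  rw [Fintype.sum_sum_type, Fintype.sum_sum_type, Finset.sum_add_distrib, add_assoc]
  congr 1
  congr 1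
  · refine Finset.sum_congr rfl fun i _ => ?_
    simp only [frame, dotProduct_sub, dotProduct_smul, dot_E, smul_eq_mul]
    ring
  · congr 1
    · refine Finset.sum_congr rfl fun i _ => ?_
      simp only [frame, dotProduct_add, dotProduct_smul, dot_E, smul_eq_mul]
      ring
    · refine Finset.sum_congr rfl fun i _ => ?_
      simp only [frame, dot_E]

lemma fderiv_ham (q p u w : V (Cd a b)) :
    fderiv ℝ (fun x : V (Cd a b) × V (Cd a b) => Ham (frame a b) x.1 x.2) (q, p) (u, w) =
      ∑ i, ((p (cx i) - q (cy i) * p (cz i) / 2) *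
          (w (cx i) - (u (cy i) * p (cz i) + q (cy i) * w (cz i)) / 2) +
        (p (cy i) + q (cx i) * p (cz i) / 2) *
          (w (cy i) + (u (cx i) * p (cz i) + q (cx i) * w (cz i)) / 2)) +
      ∑ l, p (cs l) * w (cs l) := by
  simp_rw [ham_frame]
  have hq : ∀ m : Cd a b, HasFDerivAt (fun x : V (Cd a b) × V (Cd a b) => x.1 m)
      ((ContinuousLinearMap.proj m).comp (ContinuousLinearMap.fst ℝ (V (Cd a b)) (V (Cd a b))))
      (q, p) :=
    fun m => ((ContinuousLinearMap.proj m).comp
      (ContinuousLinearMap.fst ℝ (V (Cd a b)) (V (Cd a b)))).hasFDerivAt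
  have hp : ∀ m : Cd a b, HasFDerivAt (fun x : V (Cd a b) × V (Cd a b) => x.2 m)
      ((ContinuousLinearMap.proj m).comp (ContinuousLinearMap.snd ℝ (V (Cd a b)) (V (Cd a b))))
      (q, p) :=
    fun m => ((ContinuousLinearMap.proj m).comp
      (ContinuousLinearMap.snd ℝ (V (Cd a b)) (V (Cd a b)))).hasFDerivAt
  have h0 := fun i : Fin a =>
    ((hp (cx i)).sub (((hq (cy i)).mul (hp (cz i))).mul_const (1 / 2))).pow 2
  have h1 := fun i : Fin a =>
    ((hp (cy i)).add (((hq (cx i)).mul (hp (cz i))).mul_const (1 / 2))).pow 2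
  have h2 := fun l : Fin b => (hp (cs l)).pow 2
  have h := ((HasFDerivAt.fun_sum (u := Finset.univ) fun i _ => (h0 i).add (h1 i)).add
    (HasFDerivAt.fun_sum (u := Finset.univ) fun l _ => h2 l)).const_mul (1 / 2)
  have h' := h.fderiv
  erw [h']
  simp only [smul_apply, add_apply, sub_apply, sum_apply, smul_eq_mul, mul_add,
    Finset.mul_sum, nsmul_eq_mul]
  congr 1
  · refine Finset.sum_congr rfl fun i _ => ?_
    simp
    ring
  · refine Finset.sum_congr rfl fun i _ => ?_
    simp
    ring

lemma lieBracket_frame (i : Fin a) (q : V (Cd a b)) :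
    VectorField.lieBracket ℝ (frame a b (Sum.inl i)) (frame a b (Sum.inr (Sum.inl i))) q =
      E (cz i) := by
  have hq : ∀ m : Cd a b, HasFDerivAt (fun x : V (Cd a b) => x m)
      (ContinuousLinearMap.proj m : V (Cd a b) →L[ℝ] ℝ) q :=
    fun m => (ContinuousLinearMap.proj m : V (Cd a b) →L[ℝ] ℝ).hasFDerivAt
  have h0 : HasFDerivAt (frame a b (Sum.inl i))
      (-((((1 / 2 : ℝ) • (ContinuousLinearMap.proj (cy i) : V (Cd a b) →L[ℝ] ℝ))).smulRight
        (E (cz i) : V (Cd a b)))) q := by
    have h := (((hq (cy i)).const_mul (1 / 2)).smul_const (E (cz i) : V (Cd a b))).const_sub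
      (E (cx i) : V (Cd a b))
    refine h.congr_of_eventuallyEq (Eventually.of_forall fun x => ?_)
    show E (cx i) - (x (cy i) / 2) • (E (cz i) : V (Cd a b)) =
      E (cx i) - (1 / 2 * x (cy i)) • (E (cz i) : V (Cd a b))
    rw [div_eq_inv_mul, one_div]
  have h1 : HasFDerivAt (frame a b (Sum.inr (Sum.inl i)))
      ((((1 / 2 : ℝ) • (ContinuousLinearMap.proj (cx i) : V (Cd a b) →L[ℝ] ℝ))).smulRight
        (E (cz i) : V (Cd a b))) q := by
    have h := (((hq (cx i)).const_mul (1 / 2)).smul_const (E (cz i) : V (Cd a b))).const_add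
      (E (cy i) : V (Cd a b))
    refine h.congr_of_eventuallyEq (Eventually.of_forall fun x => ?_)
    show E (cy i) + (x (cx i) / 2) • (E (cz i) : V (Cd a b)) =
      E (cy i) + (1 / 2 * x (cx i)) • (E (cz i) : V (Cd a b))
    rw [div_eq_inv_mul, one_div]
  rw [VectorField.lieBracket, h0.fderiv, h1.fderiv]
  ext m
  simp [frame, E, Pi.single_apply]
  split_ifs <;> ring

lemma isSubRiemannian_frame : IsSubRiemannian (frame a b) where
  smooth i := by
    have hq : ∀ m : Cd a b, ContDiff ℝ ∞ (fun x : V (Cd a b) => x m) :=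
      fun m => contDiff_apply ℝ ℝ m
    rcases i with i | i | l
    · exact contDiff_const.sub (((hq (cy i)).div_const 2).smul contDiff_const)
    · exact contDiff_const.add (((hq (cx i)).div_const 2).smul contDiff_const)
    · exact contDiff_const
  independent q := by
    rw [Fintype.linearIndependent_iff]
    intro g hg
    have key : ∀ m : Cd a b, ∑ k, g k * frame a b k q m = 0 := by
      intro m
      have := congrFun hg m
      simpa [Finset.sum_apply] using this
    rintro (i | i | l)
    · have := key (cx i)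
      simpa [Fintype.sum_sum_type, frame, E, Pi.single_apply] using this
    · have := key (cy i)
      simpa [Fintype.sum_sum_type, frame, E, Pi.single_apply] using this
    · have := key (cs l)
      simpa [Fintype.sum_sum_type, frame, E, Pi.single_apply] using this
  generating q := by
    rw [eq_top_iff]
    intro v _
    set P := Submodule.span ℝ {v | ∃ Y, IteratedBracket (frame a b) Y ∧ v = Y q} with hP
    have mz : ∀ i, (E (cz i) : V (Cd a b)) ∈ P := fun i => by
      rw [← lieBracket_frame i q]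
      exact Submodule.subset_span ⟨_, .bracket (.field _) (.field _), rfl⟩
    have mx : ∀ i, (E (cx i) : V (Cd a b)) ∈ P := fun i => by
      have h1 : frame a b (Sum.inl i) q ∈ P := Submodule.subset_span ⟨_, .field _, rfl⟩
      have h2 : (E (cx i) : V (Cd a b)) =
          frame a b (Sum.inl i) q + (q (cy i) / 2) • E (cz i) := by
        simp [frame]
      rw [h2]
      exact P.add_mem h1 (P.smul_mem _ (mz i))
    have my : ∀ i, (E (cy i) : V (Cd a b)) ∈ P := fun i => by
      have h1 : frame a b (Sum.inr (Sum.inl i)) q ∈ P :=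
        Submodule.subset_span ⟨_, .field _, rfl⟩
      have h2 : (E (cy i) : V (Cd a b)) =
          frame a b (Sum.inr (Sum.inl i)) q - (q (cx i) / 2) • E (cz i) := by
        simp [frame]
      rw [h2]
      exact P.sub_mem h1 (P.smul_mem _ (mz i))
    have ms : ∀ l, (E (cs l) : V (Cd a b)) ∈ P := fun l =>
      Submodule.subset_span ⟨_, .field (Sum.inr (Sum.inr l)), rfl⟩
    have e : v = ∑ m, v m • (E m : V (Cd a b)) := by
      ext m
      simp [Finset.sum_apply, E, Pi.single_apply]
    rw [e]
    refine P.sum_mem fun m _ => P.smul_mem _ ?_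
    rcases m with i | i | i | l
    · exact mx i
    · exact my i
    · exact mz i
    · exact ms l

end Pool.Agent.KS6_65.CL
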