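import Mathlib
import Pool.Agent.KS6_65.CL.Frame

/-!
# The exponential map of the product of `a` Heisenberg groups and a Euclidean space
-/

set_option autoImplicit false

open Set Filter Topology
open scoped ContDiff

noncomputable section

namespace Pool.Agent.KS6_65.CL

/-! ### One Heisenberg group -/

def hx (a b θ : ℝ) : ℝ :=
  if θ = 0 then a else (a * Real.sin θ - b * (1 - Real.cos θ)) / θ

def hy (a b θ : ℝ) : ℝ :=
  if θ = 0 then b else (a * (1 - Real.cos θ) + b * Real.sin θ) / θ

def hz (a b θ : ℝ) : ℝ :=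
  if θ = 0 then 0 else (a ^ 2 + b ^ 2) * (θ - Real.sin θ) / (2 * θ ^ 2)

lemma hasDerivAt_sin_mul (θ t : ℝ) :
    HasDerivAt (fun t => Real.sin (θ * t)) (θ * Real.cos (θ * t)) t := by
  have h : HasDerivAt (fun t => θ * t) θ t := by
    simpa using (hasDerivAt_id t).const_mul θ
  exact h.sin.congr_deriv (mul_comm _ _)

lemma hasDerivAt_cos_mul (θ t : ℝ) :
    HasDerivAt (fun t => Real.cos (θ * t)) (-θ * Real.sin (θ * t)) t := by
  have h : HasDerivAt (fun t => θ * t) θ t := by
    simpa using (hasDerivAt_id t).const_mul θ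
  exact h.cos.congr_deriv (by ring)

lemma block (a b θ : ℝ) : ∃ x y z : ℝ → ℝ,
    (∀ t, HasDerivAt x (a * Real.cos (θ * t) - b * Real.sin (θ * t)) t) ∧
    (∀ t, HasDerivAt y (a * Real.sin (θ * t) + b * Real.cos (θ * t)) t) ∧
    (∀ t, HasDerivAt z ((x t * (a * Real.sin (θ * t) + b * Real.cos (θ * t)) -
      y t * (a * Real.cos (θ * t) - b * Real.sin (θ * t))) / 2) t) ∧
    (∀ t, θ * x t = a * Real.sin (θ * t) - b * (1 - Real.cos (θ * t))) ∧
    (∀ t, θ * y t = a * (1 - Real.cos (θ * t)) + b * Real.sin (θ * t)) ∧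
    x 0 = 0 ∧ y 0 = 0 ∧ z 0 = 0 ∧ x 1 = hx a b θ ∧ y 1 = hy a b θ ∧ z 1 = hz a b θ := by
  by_cases h0 : θ = 0
  · refine ⟨fun t => a * t, fun t => b * t, fun _ => 0, fun t => ?_, fun t => ?_, fun t => ?_,
      fun t => ?_, fun t => ?_, by simp, by simp, rfl, ?_, ?_, ?_⟩
    · simpa [h0] using (hasDerivAt_id t).const_mul a
    · simpa [h0] using (hasDerivAt_id t).const_mul b
    · refine (hasDerivAt_const t (0 : ℝ)).congr_deriv ?_
      simp [h0]
      ring
    · simp [h0]
    · simp [h0]
    · simp [hx, h0]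
    · simp [hy, h0]
    · simp [hz, h0]
  · refine ⟨fun t => (a * Real.sin (θ * t) - b * (1 - Real.cos (θ * t))) / θ,
      fun t => (a * (1 - Real.cos (θ * t)) + b * Real.sin (θ * t)) / θ,
      fun t => (a ^ 2 + b ^ 2) * (θ * t - Real.sin (θ * t)) / (2 * θ ^ 2),
      fun t => ?_, fun t => ?_, fun t => ?_, fun t => ?_, fun t => ?_, ?_, ?_, ?_, ?_, ?_, ?_⟩
    · refine HasDerivAt.congr_deriv
        (((hasDerivAt_sin_mul θ t).const_mul a).sub
          (((hasDerivAt_cos_mul θ t).const_sub 1).const_mul b) |>.div_const θ) ?_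
      field_simp
    · refine HasDerivAt.congr_deriv
        ((((hasDerivAt_cos_mul θ t).const_sub 1).const_mul a).add
          ((hasDerivAt_sin_mul θ t).const_mul b) |>.div_const θ) ?_
      field_simp
    · have h : HasDerivAt (fun t => θ * t) θ t := by
        simpa using (hasDerivAt_id t).const_mul θ
      refine HasDerivAt.congr_deriv
        ((h.sub (hasDerivAt_sin_mul θ t)).const_mul (a ^ 2 + b ^ 2) |>.div_const (2 * θ ^ 2)) ?_
      have hsc := Real.sin_sq_add_cos_sq (θ * t)
      field_simp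
      linear_combination (-(a ^ 2 + b ^ 2)) * hsc
    · field_simp
    · field_simp
    · simp
    · simp
    · simp
    · simp [hx, h0]
    · simp [hy, h0]
    · simp [hz, h0]

/-! ### The exponential map -/

variable {a b : ℕ}

/-- The exponential map of the frame at the origin. -/
def expo (a b : ℕ) (lam : V (Cd a b)) : V (Cd a b) :=
  Sum.elim (fun i => hx (lam (cx i)) (lam (cy i)) (lam (cz i)))
    (Sum.elim (fun i => hy (lam (cx i)) (lam (cy i)) (lam (cz i)))
      (Sum.elim (fun i => hz (lam (cx i)) (lam (cy i)) (lam (cz i))) fun l => lam (cs l)))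

lemma dot_sum (p q : V (Cd a b)) : p ⬝ᵥ q =
    ∑ i, (p (cx i) * q (cx i) + p (cy i) * q (cy i) + p (cz i) * q (cz i)) +
      ∑ l, p (cs l) * q (cs l) := by
  simp only [dotProduct, Fintype.sum_sum_type, Finset.sum_add_distrib]
  ring

lemma exists_trajectory (lam : V (Cd a b)) : ∃ q p : ℝ → V (Cd a b),
    IsTrajectory (frame a b) q p ∧ q 0 = 0 ∧ p 0 = lam ∧ q 1 = expo a b lam := by
  choose x y z hdx hdy hdz ex ey x0 y0 z0 x1 y1 z1 using
    fun i : Fin a => block (lam (cx i)) (lam (cy i)) (lam (cz i))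
  refine ⟨fun t => Sum.elim (fun i => x i t) (Sum.elim (fun i => y i t)
      (Sum.elim (fun i => z i t) fun l => lam (cs l) * t)),
    fun t => Sum.elim
      (fun i => (lam (cx i) * (1 + Real.cos (lam (cz i) * t)) -
        lam (cy i) * Real.sin (lam (cz i) * t)) / 2)
      (Sum.elim (fun i => (lam (cx i) * Real.sin (lam (cz i) * t) +
        lam (cy i) * (1 + Real.cos (lam (cz i) * t))) / 2)
      (Sum.elim (fun i => lam (cz i)) fun l => lam (cs l))), fun t => ?_, ?_, ?_, ?_⟩
  · refine ⟨Sum.elim (fun i => lam (cx i) * Real.cos (lam (cz i) * t) -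
        lam (cy i) * Real.sin (lam (cz i) * t)) (Sum.elim
        (fun i => lam (cx i) * Real.sin (lam (cz i) * t) +
          lam (cy i) * Real.cos (lam (cz i) * t)) (Sum.elim
        (fun i => (x i t * (lam (cx i) * Real.sin (lam (cz i) * t) +
          lam (cy i) * Real.cos (lam (cz i) * t)) -
          y i t * (lam (cx i) * Real.cos (lam (cz i) * t) -
          lam (cy i) * Real.sin (lam (cz i) * t))) / 2) fun l => lam (cs l))),
      Sum.elim (fun i => -(lam (cz i) * (lam (cx i) * Real.sin (lam (cz i) * t) +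
          lam (cy i) * Real.cos (lam (cz i) * t)) / 2)) (Sum.elim
        (fun i => lam (cz i) * (lam (cx i) * Real.cos (lam (cz i) * t) -
          lam (cy i) * Real.sin (lam (cz i) * t)) / 2) (Sum.elim (fun _ => 0) fun _ => 0)),
      ?_, ?_, ?_⟩
    · rw [hasDerivAt_pi]
      rintro (i | i | i | l)
      · exact hdx i t
      · exact hdy i t
      · exact hdz i t
      · simpa using (hasDerivAt_id t).const_mul (lam (cs l))
    · rw [hasDerivAt_pi]
      rintro (i | i | i | l)
      · refine HasDerivAt.congr_deriv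
          ((((hasDerivAt_cos_mul _ t).const_add 1).const_mul (lam (cx i))).sub
            ((hasDerivAt_sin_mul _ t).const_mul (lam (cy i))) |>.div_const 2) ?_
        simp only [Sum.elim_inl]
        ring
      · refine HasDerivAt.congr_deriv
          (((hasDerivAt_sin_mul _ t).const_mul (lam (cx i))).add
            (((hasDerivAt_cos_mul _ t).const_add 1).const_mul (lam (cy i))) |>.div_const 2) ?_
        simp only [Sum.elim_inl, Sum.elim_inr]
        ring
      · exact hasDerivAt_const _ _
      · exact hasDerivAt_const _ _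
    · intro u w
      rw [fderiv_ham, dot_sum, dot_sum]
      simp only [Sum.elim_inl, Sum.elim_inr]
      rw [add_sub_add_comm, ← Finset.sum_sub_distrib, ← Finset.sum_sub_distrib]
      congr 1
      · refine Finset.sum_congr rfl fun i _ => ?_
        have e1 := ex i t
        have e2 := ey i t
        linear_combination (-1 / 2 * (w (cx i) - (u (cy i) * lam (cz i) + y i t * w (cz i)) / 2)) *
          e2 + (1 / 2 * (w (cy i) + (u (cx i) * lam (cz i) + x i t * w (cz i)) / 2)) * e1
      · refine Finset.sum_congr rfl fun l _ => ?_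
        ring
  · ext m
    rcases m with i | i | i | l <;> simp [x0, y0, z0]
  · ext m
    rcases m with i | i | i | l <;> simp <;> ring
  · ext m
    rcases m with i | i | i | l <;> simp [x1, y1, z1, expo]

lemma eq_of_deriv {f g f' : ℝ → ℝ} (hf : ∀ t, HasDerivAt f (f' t) t)
    (hg : ∀ t, HasDerivAt g (f' t) t) (h0 : f 0 = g 0) (t : ℝ) : f t = g t := by
  have h : ∀ t, HasDerivAt (fun t => f t - g t) 0 t := fun t =>
    ((hf t).sub (hg t)).congr_deriv (sub_self _)
  have := is_const_of_deriv_eq_zero (fun t => (h t).differentiableAt) (fun t => (h t).deriv) t 0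
  simp only [h0, sub_self] at this
  linarith

/-- The Hamiltonian equations. -/
lemma trajectory_eqs {q p : ℝ → V (Cd a b)} (h : IsTrajectory (frame a b) q p) (t : ℝ) :
    (∀ i, HasDerivAt (fun t => q t (cx i)) (p t (cx i) - q t (cy i) * p t (cz i) / 2) t ∧
      HasDerivAt (fun t => q t (cy i)) (p t (cy i) + q t (cx i) * p t (cz i) / 2) t ∧
      HasDerivAt (fun t => q t (cz i)) ((q t (cx i) * (p t (cy i) + q t (cx i) * p t (cz i) / 2) -
        q t (cy i) * (p t (cx i) - q t (cy i) * p t (cz i) / 2)) / 2) t ∧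
      HasDerivAt (fun t => p t (cx i))
        (-((p t (cy i) + q t (cx i) * p t (cz i) / 2) * p t (cz i) / 2)) t ∧
      HasDerivAt (fun t => p t (cy i))
        ((p t (cx i) - q t (cy i) * p t (cz i) / 2) * p t (cz i) / 2) t ∧
      HasDerivAt (fun t => p t (cz i)) 0 t) ∧
    (∀ l, HasDerivAt (fun t => q t (cs l)) (p t (cs l)) t ∧
      HasDerivAt (fun t => p t (cs l)) 0 t) := by
  obtain ⟨dq, dp, hq, hp, hH⟩ := h t
  rw [hasDerivAt_pi] at hq hp
  have key : ∀ m : Cd a b, dq m = fderiv ℝ (fun x : V (Cd a b) × V (Cd a b) =>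
      Ham (frame a b) x.1 x.2) (q t, p t) (0, E m) ∧
      dp m = -fderiv ℝ (fun x : V (Cd a b) × V (Cd a b) =>
      Ham (frame a b) x.1 x.2) (q t, p t) (E m, 0) := by
    intro m
    rw [hH, hH]
    constructor <;> simp [E]
  simp only [fderiv_ham] at key
  have sum1 : ∀ (f : Fin a → ℝ) (i : Fin a), (∀ k, k ≠ i → f k = 0) → ∑ k, f k = f i :=
    fun f i h => Finset.sum_eq_single i (fun k _ hk => h k hk) (by simp)
  refine ⟨fun i => ⟨?_, ?_, ?_, ?_, ?_, ?_⟩, fun l => ⟨?_, ?_⟩⟩
  · refine (hq (cx i)).congr_deriv ?_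
    rw [(key (cx i)).1, sum1 _ i ?_]
    · simp [E]
    · intro k hk
      simp [E, hk]
  · refine (hq (cy i)).congr_deriv ?_
    rw [(key (cy i)).1, sum1 _ i ?_]
    · simp [E]
    · intro k hk
      simp [E, hk]
  · refine (hq (cz i)).congr_deriv ?_
    rw [(key (cz i)).1, sum1 _ i ?_]
    · simp [E]
      ring
    · intro k hk
      simp [E, hk]
  · refine (hp (cx i)).congr_deriv ?_
    rw [(key (cx i)).2, sum1 _ i ?_]
    · simp [E]
      ring
    · intro k hk
      simp [E, hk]
  · refine (hp (cy i)).congr_deriv ?_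
    rw [(key (cy i)).2, sum1 _ i ?_]
    · simp [E]
      ring
    · intro k hk
      simp [E, hk]
  · refine (hp (cz i)).congr_deriv ?_
    rw [(key (cz i)).2, sum1 _ i ?_]
    · simp [E]
    · intro k hk
      simp [E, hk]
  · refine (hq (cs l)).congr_deriv ?_
    rw [(key (cs l)).1]
    simp [E, Pi.single_apply]
  · refine (hp (cs l)).congr_deriv ?_
    rw [(key (cs l)).2]
    simp [E]

/-- Trajectories are unique. -/
lemma unique_trajectory {q p : ℝ → V (Cd a b)} (h : IsTrajectory (frame a b) q p)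
    (h0 : q 0 = 0) : q 1 = expo a b (p 0) := by
  have E := fun t => trajectory_eqs h t
  have z0 : ∀ m, q 0 m = 0 := fun m => congrFun h0 m
  ext m
  have const_z : ∀ (i : Fin a) (t : ℝ), p t (cz i) = p 0 (cz i) := fun i t =>
    eq_of_deriv (f := fun t => p t (cz i)) (g := fun _ => p 0 (cz i)) (f' := fun _ => 0)
      (fun t => ((E t).1 i).2.2.2.2.2) (fun t => hasDerivAt_const _ _) rfl t
  have const_s : ∀ (l : Fin b) (t : ℝ), p t (cs l) = p 0 (cs l) := fun l t =>
    eq_of_deriv (f := fun t => p t (cs l)) (g := fun _ => p 0 (cs l)) (f' := fun _ => 0)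
      (fun t => ((E t).2 l).2) (fun t => hasDerivAt_const _ _) rfl t
  -- the Heisenberg factors
  have main : ∀ i : Fin a, q 1 (cx i) = hx (p 0 (cx i)) (p 0 (cy i)) (p 0 (cz i)) ∧
      q 1 (cy i) = hy (p 0 (cx i)) (p 0 (cy i)) (p 0 (cz i)) ∧
      q 1 (cz i) = hz (p 0 (cx i)) (p 0 (cy i)) (p 0 (cz i)) := by
    intro i
    obtain ⟨x, y, z, hdx, hdy, hdz, -, -, x0, y0, zz0, x1, y1, z1⟩ :=
      block (p 0 (cx i)) (p 0 (cy i)) (p 0 (cz i))
    set θ := p 0 (cz i) with hθ
    have Hz : ∀ t, p t (cz i) = θ := fun t => const_z i t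
    -- the horizontal momenta
    let h1 : ℝ → ℝ := fun t => p t (cx i) - q t (cy i) * θ / 2
    let h2 : ℝ → ℝ := fun t => p t (cy i) + q t (cx i) * θ / 2
    have e1 : ∀ t, p t (cx i) - q t (cy i) * p t (cz i) / 2 = h1 t := fun t => by rw [Hz]
    have e2 : ∀ t, p t (cy i) + q t (cx i) * p t (cz i) / 2 = h2 t := fun t => by rw [Hz]
    have dqx : ∀ t, HasDerivAt (fun t => q t (cx i)) (h1 t) t := fun t =>
      (((E t).1 i).1).congr_deriv (e1 t)
    have dqy : ∀ t, HasDerivAt (fun t => q t (cy i)) (h2 t) t := fun t =>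
      (((E t).1 i).2.1).congr_deriv (e2 t)
    have dqz : ∀ t, HasDerivAt (fun t => q t (cz i))
        ((q t (cx i) * h2 t - q t (cy i) * h1 t) / 2) t := fun t =>
      (((E t).1 i).2.2.1).congr_deriv (by rw [e1, e2])
    have dh1 : ∀ t, HasDerivAt h1 (-(θ * h2 t)) t := fun t => by
      refine ((((E t).1 i).2.2.2.1).sub (((dqy t).mul_const θ).div_const 2)).congr_deriv ?_
      rw [e2, Hz]
      ring
    have dh2 : ∀ t, HasDerivAt h2 (θ * h1 t) t := fun t => by
      refine ((((E t).1 i).2.2.2.2.1).add (((dqx t).mul_const θ).div_const 2)).congr_deriv ?_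
      rw [e1, Hz]
      ring
    have A : ∀ t, h1 t * Real.cos (θ * t) + h2 t * Real.sin (θ * t) = p 0 (cx i) := fun t => by
      refine eq_of_deriv (f := fun t => h1 t * Real.cos (θ * t) + h2 t * Real.sin (θ * t))
        (g := fun _ => p 0 (cx i)) (f' := fun _ => 0) (fun t => ?_)
        (fun t => hasDerivAt_const _ _) ?_ t
      · refine (((dh1 t).mul (hasDerivAt_cos_mul θ t)).add
          ((dh2 t).mul (hasDerivAt_sin_mul θ t))).congr_deriv ?_
        ring
      · simp [h1, z0]
    have B : ∀ t, h2 t * Real.cos (θ * t) - h1 t * Real.sin (θ * t) = p 0 (cy i) := fun t => by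
      refine eq_of_deriv (f := fun t => h2 t * Real.cos (θ * t) - h1 t * Real.sin (θ * t))
        (g := fun _ => p 0 (cy i)) (f' := fun _ => 0) (fun t => ?_)
        (fun t => hasDerivAt_const _ _) ?_ t
      · refine (((dh2 t).mul (hasDerivAt_cos_mul θ t)).sub
          ((dh1 t).mul (hasDerivAt_sin_mul θ t))).congr_deriv ?_
        ring
      · simp [h2, z0]
    have H1 : ∀ t, h1 t = p 0 (cx i) * Real.cos (θ * t) - p 0 (cy i) * Real.sin (θ * t) := by
      intro t
      rw [← A t, ← B t]
      linear_combination (-(h1 t)) * Real.sin_sq_add_cos_sq (θ * t)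
    have H2 : ∀ t, h2 t = p 0 (cx i) * Real.sin (θ * t) + p 0 (cy i) * Real.cos (θ * t) := by
      intro t
      rw [← A t, ← B t]
      linear_combination (-(h2 t)) * Real.sin_sq_add_cos_sq (θ * t)
    have X : ∀ t, q t (cx i) = x t := fun t =>
      eq_of_deriv (f := fun t => q t (cx i)) dqx
        (fun t => (hdx t).congr_deriv (H1 t).symm) (by simp [z0, x0]) t
    have Y : ∀ t, q t (cy i) = y t := fun t =>
      eq_of_deriv (f := fun t => q t (cy i)) dqy
        (fun t => (hdy t).congr_deriv (H2 t).symm) (by simp [z0, y0]) t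
    have Z : ∀ t, q t (cz i) = z t := fun t =>
      eq_of_deriv (f := fun t => q t (cz i)) dqz
        (fun t => (hdz t).congr_deriv (by rw [X, Y, H1, H2])) (by simp [z0, zz0]) t
    exact ⟨by rw [X, x1], by rw [Y, y1], by rw [Z, z1]⟩
  rcases m with i | i | i | l
  · exact (main i).1
  · exact (main i).2.1
  · exact (main i).2.2
  · show q 1 (cs l) = p 0 (cs l)
    have := eq_of_deriv (f := fun t => q t (cs l)) (g := fun t => t * p 0 (cs l))
      (f' := fun _ => p 0 (cs l))
      (fun t => (((E t).2 l).1).congr_deriv (const_s l t))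
      (fun t => by simpa using (hasDerivAt_id t).mul_const (p 0 (cs l))) (by simp [z0]) 1
    simpa using this

/-- `expo` is the exponential map at the origin. -/
theorem isExp_expo : IsExp (frame a b) 0 (expo a b) := by
  intro lam
  obtain ⟨q, p, h, h0, h1, -⟩ := exists_trajectory lam
  refine ⟨⟨q, p, h, h0, h1⟩, fun q' p' h' h0' h1' => ?_⟩
  rw [unique_trajectory h' h0', h1']

end Pool.Agent.KS6_65.CL
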