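import Mathlib
import Pool.Agent.KS6_65.CL.Exp

/-!
# Conjugate covectors of the product of `a` Heisenberg groups and a Euclidean space
-/

set_option autoImplicit false

open Set Filter Topology
open scoped ContDiff

noncomputable section

namespace Pool.Agent.KS6_65.CL

/-- The differential of the exponential map of one Heisenberg group is injective at the covectors
with `θ ≠ 0`, `2 - 2 cos θ - θ sin θ ≠ 0`, `cos θ ≠ 1` and `(a, b) ≠ 0`. -/
lemma block_inj {a b θ u v w : ℝ} (hθ : θ ≠ 0)
    (hJ : 2 - 2 * Real.cos θ - θ * Real.sin θ ≠ 0) (hκ : 1 - Real.cos θ ≠ 0)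
    (hab : a ^ 2 + b ^ 2 ≠ 0)
    (d0 : HasDerivAt (fun s => hx (a + s * u) (b + s * v) (θ + s * w)) 0 0)
    (d1 : HasDerivAt (fun s => hy (a + s * u) (b + s * v) (θ + s * w)) 0 0)
    (d2 : HasDerivAt (fun s => hz (a + s * u) (b + s * v) (θ + s * w)) 0 0) :
    u = 0 ∧ v = 0 ∧ w = 0 := by
  have l0 : HasDerivAt (fun s : ℝ => a + s * u) u 0 := by
    simpa using ((hasDerivAt_id (0 : ℝ)).mul_const u).const_add a
  have l1 : HasDerivAt (fun s : ℝ => b + s * v) v 0 := by
    simpa using ((hasDerivAt_id (0 : ℝ)).mul_const v).const_add b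
  have l2 : HasDerivAt (fun s : ℝ => θ + s * w) w 0 := by
    simpa using ((hasDerivAt_id (0 : ℝ)).mul_const w).const_add θ
  have hev : ∀ᶠ s : ℝ in 𝓝 0, θ + s * w ≠ 0 := by
    have := l2.continuousAt.eventually_ne (y := (0 : ℝ)) (by simpa using hθ)
    exact this
  -- the derivatives of the components
  have E1 := (l2.mul d0).unique (((l0.mul l2.sin).sub (l1.mul
    (l2.cos.const_sub 1))).congr_of_eventuallyEq (by
      filter_upwards [hev] with s hs
      simp only [Pi.mul_apply, Pi.sub_apply]
      rw [hx, if_neg hs]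
      field_simp))
  have E2 := (l2.mul d1).unique (((l0.mul (l2.cos.const_sub 1)).add
    (l1.mul l2.sin)).congr_of_eventuallyEq (by
      filter_upwards [hev] with s hs
      simp only [Pi.mul_apply, Pi.add_apply]
      rw [hy, if_neg hs]
      field_simp))
  have E3 := (((l2.pow 2).const_mul 2).mul d2).unique
    ((((l0.pow 2).add (l1.pow 2)).mul (l2.sub l2.sin)).congr_of_eventuallyEq (by
      filter_upwards [hev] with s hs
      simp only [Pi.mul_apply, Pi.add_apply, Pi.sub_apply, Pi.pow_apply]
      rw [hz, if_neg hs]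
      field_simp))
  have X0 : θ * hx a b θ = a * Real.sin θ - b * (1 - Real.cos θ) := by
    rw [hx, if_neg hθ]
    field_simp
  have X1 : θ * hy a b θ = a * (1 - Real.cos θ) + b * Real.sin θ := by
    rw [hy, if_neg hθ]
    field_simp
  have X2 : 2 * θ ^ 2 * hz a b θ = (a ^ 2 + b ^ 2) * (θ - Real.sin θ) := by
    rw [hz, if_neg hθ]
    field_simp
  simp only [add_zero, zero_mul, mul_zero, Pi.pow_apply, Pi.sub_apply,
    Pi.add_apply] at E1 E2 E3
  push_cast at E3
  have hsc := Real.sin_sq_add_cos_sq θ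
  generalize hx a b θ = e0 at *
  generalize hy a b θ = e1 at *
  generalize hz a b θ = e2 at *
  generalize Real.sin θ = s at *
  generalize Real.cos θ = c at *
  have R1 : 2 * (1 - c) * (w * (a ^ 2 + b ^ 2)) =
      θ * (2 * (1 - c) * (a * u + b * v) + w * (a ^ 2 + b ^ 2) * s) := by
    linear_combination (a * s - b * (1 - c)) * (θ * E1 - w * X0) +
      (a * (1 - c) + b * s) * (θ * E2 - w * X1) -
      (w * (a ^ 2 + b ^ 2) - θ * (a * u + b * v)) * hsc
  have R2 : 2 * w * (a ^ 2 + b ^ 2) * (θ - s) =
      θ * (2 * (a * u + b * v) * (θ - s) + (a ^ 2 + b ^ 2) * (1 - c) * w) := by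
    linear_combination θ * E3 - 2 * w * X2
  have R3 : θ * (a ^ 2 + b ^ 2) * w * (2 - 2 * c - θ * s) = 0 := by
    linear_combination (-(1 - c)) * R2 + (θ - s) * R1 - θ * (a ^ 2 + b ^ 2) * w * hsc
  have v2 : w = 0 := by
    have h5 : θ * (a ^ 2 + b ^ 2) ≠ 0 := mul_ne_zero hθ hab
    have h6 := (mul_eq_zero.1 R3).resolve_right hJ
    exact (mul_eq_zero.1 h6).resolve_left h5
  rw [v2] at E1 E2
  have v0 : u = 0 := by
    have h5 : 2 * (1 - c) * u = 0 := by
      linear_combination (-s) * E1 - (1 - c) * E2 - u * hsc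
    exact (mul_eq_zero.1 h5).resolve_left (mul_ne_zero two_ne_zero hκ)
  have v1 : v = 0 := by
    have h5 : 2 * (1 - c) * v = 0 := by
      linear_combination (1 - c) * E1 - s * E2 - v * hsc
    exact (mul_eq_zero.1 h5).resolve_left (mul_ne_zero two_ne_zero hκ)
  exact ⟨v0, v1, v2⟩

variable {a b : ℕ}

/-- If the derivative of `expo` along a line vanishes, then so does the differential in this
direction. -/
lemma fderiv_eq_zero {lam v : V (Cd a b)}
    (h : HasDerivAt (fun s : ℝ => expo a b (lam + s • v)) 0 0) :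
    fderiv ℝ (expo a b) lam v = 0 := by
  by_cases hd : DifferentiableAt ℝ (expo a b) lam
  · have hl : HasDerivAt (fun s : ℝ => lam + s • v) v 0 := by
      simpa using ((hasDerivAt_id (0 : ℝ)).smul_const v).const_add lam
    have hd' : HasFDerivAt (expo a b) (fderiv ℝ (expo a b) lam) (lam + (0 : ℝ) • v) := by
      simpa using hd.hasFDerivAt
    have h3 := hd'.comp_hasDerivAt (0 : ℝ) hl
    exact h3.unique h
  · rw [fderiv_zero_of_not_differentiableAt hd]
    rfl

/-- The covectors which vanish on the distribution of one of the Heisenberg groups are critical. -/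
lemma not_bij {lam : V (Cd a b)} {i : Fin a} (h0 : lam (cx i) = 0) (h1 : lam (cy i) = 0) :
    ¬ Function.Bijective (fderiv ℝ (expo a b) lam) := by
  intro hbij
  have hconst : (fun s : ℝ => expo a b (lam + s • E (cz i))) = fun _ => expo a b lam := by
    funext s
    ext m
    rcases m with k | k | k | l
    · by_cases hk : k = i
      · subst hk
        simp [expo, E, h0, h1, hx]
      · simp [expo, E, hk]
    · by_cases hk : k = i
      · subst hk
        simp [expo, E, h0, h1, hy]
      · simp [expo, E, hk]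
    · by_cases hk : k = i
      · subst hk
        simp [expo, E, h0, h1, hz]
      · simp [expo, E, hk]
    · simp [expo, E]
  have hv : fderiv ℝ (expo a b) lam (E (cz i)) = 0 := by
    apply fderiv_eq_zero
    rw [hconst]
    exact hasDerivAt_const _ _
  have h2 : (E (cz i) : V (Cd a b)) = 0 := hbij.1 (hv.trans (map_zero _).symm)
  have := congrFun h2 (cz i)
  simp [E] at this

/-- Non-critical covectors. -/
lemma bij {lam : V (Cd a b)} (h : ∀ i, lam (cz i) ≠ 0 ∧
    2 - 2 * Real.cos (lam (cz i)) - lam (cz i) * Real.sin (lam (cz i)) ≠ 0 ∧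
    1 - Real.cos (lam (cz i)) ≠ 0 ∧ lam (cx i) ^ 2 + lam (cy i) ^ 2 ≠ 0) :
    Function.Bijective (fderiv ℝ (expo a b) lam) := by
  have hd : DifferentiableAt ℝ (expo a b) lam := by
    have hm : ∀ m : Cd a b, DifferentiableAt ℝ (fun x : V (Cd a b) => x m) lam :=
      fun m => differentiableAt_apply m lam
    have hev : ∀ i : Fin a, ∀ᶠ x : V (Cd a b) in 𝓝 lam, x (cz i) ≠ 0 := fun i =>
      (continuous_apply (cz i)).continuousAt.eventually_ne (h i).1
    rw [differentiableAt_pi]
    rintro (i | i | i | l)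
    · have h2 := (h i).1
      have h3 : DifferentiableAt ℝ (fun x : V (Cd a b) =>
          (x (cx i) * Real.sin (x (cz i)) - x (cy i) * (1 - Real.cos (x (cz i)))) / x (cz i))
          lam := by
        fun_prop (disch := exact h2)
      refine h3.congr_of_eventuallyEq ?_
      filter_upwards [hev i] with x hx'
      show hx _ _ _ = _
      rw [hx, if_neg hx']
    · have h2 := (h i).1
      have h3 : DifferentiableAt ℝ (fun x : V (Cd a b) =>
          (x (cx i) * (1 - Real.cos (x (cz i))) + x (cy i) * Real.sin (x (cz i))) / x (cz i))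
          lam := by
        fun_prop (disch := exact h2)
      refine h3.congr_of_eventuallyEq ?_
      filter_upwards [hev i] with x hx'
      show hy _ _ _ = _
      rw [hy, if_neg hx']
    · have h2 := (h i).1
      have h4 : 2 * lam (cz i) ^ 2 ≠ 0 := by positivity
      have h3 : DifferentiableAt ℝ (fun x : V (Cd a b) =>
          (x (cx i) ^ 2 + x (cy i) ^ 2) * (x (cz i) - Real.sin (x (cz i))) /
            (2 * x (cz i) ^ 2)) lam := by
        fun_prop (disch := exact h4)
      refine h3.congr_of_eventuallyEq ?_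
      filter_upwards [hev i] with x hx'
      show hz _ _ _ = _
      rw [hz, if_neg hx']
    · exact hm (cs l)
  have hinj : Function.Injective (fderiv ℝ (expo a b) lam) := by
    rw [injective_iff_map_eq_zero]
    intro v hv
    have hl : HasDerivAt (fun s : ℝ => lam + s • v) v 0 := by
      simpa using ((hasDerivAt_id (0 : ℝ)).smul_const v).const_add lam
    have hd' : HasFDerivAt (expo a b) (fderiv ℝ (expo a b) lam) (lam + (0 : ℝ) • v) := by
      simpa using hd.hasFDerivAt
    have he := hd'.comp_hasDerivAt (0 : ℝ) hl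
    rw [hv] at he
    have hei : ∀ m, HasDerivAt (fun s : ℝ => expo a b (lam + s • v) m) 0 0 :=
      fun m => hasDerivAt_pi.1 he m
    have key : ∀ i, v (cx i) = 0 ∧ v (cy i) = 0 ∧ v (cz i) = 0 := fun i =>
      block_inj (h i).1 (h i).2.1 (h i).2.2.1 (h i).2.2.2 (hei (cx i)) (hei (cy i))
        (hei (cz i))
    ext m
    rcases m with i | i | i | l
    · exact (key i).1
    · exact (key i).2.1
    · exact (key i).2.2
    · have h5 : HasDerivAt (fun s : ℝ => lam (cs l) + s * v (cs l)) (v (cs l)) 0 := by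
        simpa using ((hasDerivAt_id (0 : ℝ)).mul_const (v (cs l))).const_add (lam (cs l))
      exact h5.unique (hei (cs l))
  exact ⟨hinj, (LinearMap.injective_iff_surjective
    (f := (fderiv ℝ (expo a b) lam : V (Cd a b) →ₗ[ℝ] V (Cd a b)))).1 hinj⟩

lemma ham_zero (lam : V (Cd a b)) : Ham (frame a b) 0 lam =
    1 / 2 * (∑ i, (lam (cx i) ^ 2 + lam (cy i) ^ 2) + ∑ l, lam (cs l) ^ 2) := by
  rw [ham_frame]
  simp

lemma ham_smul (s : ℝ) (lam : V (Cd a b)) :
    Ham (frame a b) 0 (s • lam) = s ^ 2 * Ham (frame a b) 0 lam := by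
  rw [ham_zero, ham_zero]
  simp only [Pi.smul_apply, smul_eq_mul, mul_add, Finset.mul_sum, mul_pow]
  congr 1
  · refine Finset.sum_congr rfl fun i _ => ?_
    ring
  · refine Finset.sum_congr rfl fun i _ => ?_
    ring

end Pool.Agent.KS6_65.CL
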