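import Mathlib
import Pool.Agent.KS6_65.CL.Conj

/-!
# The regular conjugate locus of the product of `a` Heisenberg groups and `ℝ^b` is not dense
-/

set_option autoImplicit false

open Set Filter Topology
open scoped ContDiff

noncomputable section

namespace Pool.Agent.KS6_65.CL

variable {a b : ℕ}

/-- The conjugate locus is not empty and the regular conjugate locus is not dense in it. -/
lemma not_dense (ha : 1 ≤ a) (hab : 2 ≤ a + b) :
    (Conj (frame a b) 0 (expo a b)).Nonempty ∧
    ¬ Conj (frame a b) 0 (expo a b) ⊆ closure (Regular (frame a b) 0 (expo a b)) := by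
  set i₀ : Fin a := ⟨0, ha⟩ with hi₀
  let P : V (Cd a b) := Sum.elim (fun i => if i = i₀ then 0 else 1)
    (Sum.elim (fun _ => 0) (Sum.elim (fun _ => Real.pi) fun _ => 1))
  have hP : P ∈ Conj (frame a b) 0 (expo a b) := by
    refine ⟨?_, not_bij (i := i₀) (by simp [P]) (by simp [P])⟩
    rw [ham_zero]
    have h1 : ∑ i : Fin a, (P (cx i) ^ 2 + P (cy i) ^ 2) = (a : ℝ) - 1 := by
      have : ∀ i : Fin a, P (cx i) ^ 2 + P (cy i) ^ 2 = 1 - if i = i₀ then 1 else 0 := by
        intro i
        simp only [P, Sum.elim_inl, Sum.elim_inr]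
        split_ifs <;> norm_num
      simp only [this, Finset.sum_sub_distrib]
      simp
    have h2 : ∑ l : Fin b, P (cs l) ^ 2 = (b : ℝ) := by
      simp [P]
    rw [h1, h2]
    have h3 : (2 : ℝ) ≤ a + b := by exact_mod_cast hab
    intro h4
    linarith
  refine ⟨⟨P, hP⟩, fun hsub => ?_⟩
  have hcl := hsub hP
  rw [mem_closure_iff_frequently] at hcl
  have hz : ∀ i : Fin a, Continuous fun lam : V (Cd a b) => lam (cz i) :=
    fun i => continuous_apply (cz i)
  have hU : ∀ᶠ lam : V (Cd a b) in 𝓝 P, ∀ i : Fin a, 0 < lam (cz i) ∧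
      0 < 2 - 2 * Real.cos (lam (cz i)) - lam (cz i) * Real.sin (lam (cz i)) ∧
      0 < 1 - Real.cos (lam (cz i)) := by
    rw [eventually_all]
    intro i
    have c1 : Continuous fun lam : V (Cd a b) =>
        2 - 2 * Real.cos (lam (cz i)) - lam (cz i) * Real.sin (lam (cz i)) := by
      have := hz i
      fun_prop
    have c2 : Continuous fun lam : V (Cd a b) => 1 - Real.cos (lam (cz i)) := by
      have := hz i
      fun_prop
    refine ((hz i).continuousAt.eventually (lt_mem_nhds ?_)).and
      ((c1.continuousAt.eventually (lt_mem_nhds ?_)).and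
        (c2.continuousAt.eventually (lt_mem_nhds ?_)))
    · simpa [P] using Real.pi_pos
    · simp only [P, Sum.elim_inr, Sum.elim_inl, Real.cos_pi, Real.sin_pi]
      norm_num
    · simp only [P, Sum.elim_inr, Sum.elim_inl, Real.cos_pi]
      norm_num
  obtain ⟨lam, hR, hL⟩ := (hcl.and_eventually hU).exists
  obtain ⟨hC, U', hU', hline⟩ := hR
  obtain ⟨i, hi⟩ : ∃ i : Fin a, lam (cx i) ^ 2 + lam (cy i) ^ 2 = 0 := by
    by_contra hcon
    push Not at hcon
    exact hC.2 (bij fun i => ⟨(hL i).1.ne', (hL i).2.1.ne', (hL i).2.2.ne', hcon i⟩)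
  have hx0 : lam (cx i) = 0 := by nlinarith [sq_nonneg (lam (cx i)), sq_nonneg (lam (cy i))]
  have hy0 : lam (cy i) = 0 := by nlinarith [sq_nonneg (lam (cx i)), sq_nonneg (lam (cy i))]
  have hne : lam ≠ 0 := by
    rintro rfl
    apply hC.1
    rw [ham_zero]
    simp
  have ht : Tendsto (fun s : ℝ => s • lam) (𝓝 1) (𝓝 lam) :=
    (continuous_id.smul continuous_const).tendsto' 1 lam (one_smul ℝ lam)
  have h1 : ∀ᶠ s : ℝ in 𝓝[≠] 1, (s • lam ∈ U' ∧ s ≠ 0) ∧ s ≠ 1 :=
    (((ht.eventually hU').and (eventually_ne_nhds one_ne_zero)).filter_mono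
      nhdsWithin_le_nhds).and self_mem_nhdsWithin
  obtain ⟨s, ⟨hs, hs0⟩, hs1⟩ := h1.exists
  have hsC : s • lam ∈ Conj (frame a b) 0 (expo a b) := by
    refine ⟨?_, not_bij (i := i) (by simp [hx0]) (by simp [hy0])⟩
    rw [ham_smul]
    exact mul_ne_zero (pow_ne_zero 2 hs0) hC.1
  have h2 := hline lam hne s 1 ⟨hsC, hs⟩ (by
    rw [one_smul]
    exact ⟨hC, mem_of_mem_nhds hU'⟩)
  have h3 : (s - 1) • lam = 0 := by
    rw [sub_smul, h2, sub_self]
  rcases smul_eq_zero.1 h3 with h4 | h4
  · exact hs1 (sub_eq_zero.1 h4)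
  · exact hne h4

/-- The regular conjugate locus is not empty. -/
lemma regular_nonempty (ha : 1 ≤ a) : (Regular (frame a b) 0 (expo a b)).Nonempty := by
  set i₀ : Fin a := ⟨0, ha⟩ with hi₀
  have hpi := Real.pi_pos
  let Q : V (Cd a b) := Sum.elim (fun _ => 1)
    (Sum.elim (fun _ => 0) (Sum.elim (fun i => if i = i₀ then 2 * Real.pi else Real.pi)
      fun _ => 1))
  have hQz : Q (cz i₀) = 2 * Real.pi := by simp [Q]
  have hQ : Q ∈ Conj (frame a b) 0 (expo a b) := by
    refine ⟨?_, fun hbij => ?_⟩
    · rw [ham_zero]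
      have h1 : ∑ i : Fin a, (Q (cx i) ^ 2 + Q (cy i) ^ 2) = (a : ℝ) := by simp [Q]
      have h2 : ∑ l : Fin b, Q (cs l) ^ 2 = (b : ℝ) := by simp [Q]
      rw [h1, h2]
      have h3 : (1 : ℝ) ≤ a := by exact_mod_cast ha
      have h4 : (0 : ℝ) ≤ b := Nat.cast_nonneg b
      intro h5
      linarith
    · have hv : fderiv ℝ (expo a b) Q (E (cy i₀)) = 0 := by
        apply fderiv_eq_zero
        rw [hasDerivAt_pi]
        have hne : (2 * Real.pi : ℝ) ≠ 0 := by positivity
        rintro (k | k | k | l)
        · by_cases hk : k = i₀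
          · have : (fun s : ℝ => expo a b (Q + s • E (cy i₀)) (Sum.inl k)) = fun _ => 0 := by
              funext s
              simp [expo, E, Q, hk, hx]
            rw [this]
            exact hasDerivAt_const _ _
          · have : (fun s : ℝ => expo a b (Q + s • E (cy i₀)) (Sum.inl k)) =
                fun _ => expo a b Q (Sum.inl k) := by
              funext s
              simp [expo, E, hk]
            rw [this]
            exact hasDerivAt_const _ _
        · by_cases hk : k = i₀
          · have : (fun s : ℝ => expo a b (Q + s • E (cy i₀)) (Sum.inr (Sum.inl k))) =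
                fun _ => 0 := by
              funext s
              simp [expo, E, Q, hk, hy]
            rw [this]
            exact hasDerivAt_const _ _
          · have : (fun s : ℝ => expo a b (Q + s • E (cy i₀)) (Sum.inr (Sum.inl k))) =
                fun _ => expo a b Q (Sum.inr (Sum.inl k)) := by
              funext s
              simp [expo, E, hk]
            rw [this]
            exact hasDerivAt_const _ _
        · by_cases hk : k = i₀
          · have : (fun s : ℝ => expo a b (Q + s • E (cy i₀)) (Sum.inr (Sum.inr (Sum.inl k)))) =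
                fun s => (1 + s ^ 2) * (2 * Real.pi) / (2 * (2 * Real.pi) ^ 2) := by
              funext s
              simp [expo, E, Q, hk, hz, hpi.ne']
            rw [this]
            have h1 : HasDerivAt (fun s : ℝ => 1 + s ^ 2) 0 0 := by
              simpa using ((hasDerivAt_id (0 : ℝ)).pow 2).const_add 1
            exact ((h1.mul_const (2 * Real.pi)).div_const _).congr_deriv (by simp)
          · have : (fun s : ℝ => expo a b (Q + s • E (cy i₀)) (Sum.inr (Sum.inr (Sum.inl k)))) =
                fun _ => expo a b Q (Sum.inr (Sum.inr (Sum.inl k))) := by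
              funext s
              simp [expo, E, hk]
            rw [this]
            exact hasDerivAt_const _ _
        · have : (fun s : ℝ => expo a b (Q + s • E (cy i₀)) (Sum.inr (Sum.inr (Sum.inr l)))) =
              fun _ => expo a b Q (Sum.inr (Sum.inr (Sum.inr l))) := by
            funext s
            simp [expo, E]
          rw [this]
          exact hasDerivAt_const _ _
      have h2 : (E (cy i₀) : V (Cd a b)) = 0 := hbij.1 (hv.trans (map_zero _).symm)
      have := congrFun h2 (cy i₀)
      simp [E] at this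
  refine ⟨Q, hQ, ?_⟩
  have hzc : ∀ i : Fin a, Continuous fun lam : V (Cd a b) => lam (cz i) :=
    fun i => continuous_apply (cz i)
  have hxc : ∀ i : Fin a, Continuous fun lam : V (Cd a b) => lam (cx i) :=
    fun i => continuous_apply (cx i)
  have hU : ∀ᶠ lam : V (Cd a b) in 𝓝 Q, ∀ i : Fin a, (0 < lam (cx i) ∧ 0 < lam (cz i)) ∧
      (i = i₀ → lam (cz i) < 4 * Real.pi ∧
        0 < 2 * Real.sin (lam (cz i) / 2) - lam (cz i) * Real.cos (lam (cz i) / 2)) ∧
      (i ≠ i₀ → 0 < 2 - 2 * Real.cos (lam (cz i)) - lam (cz i) * Real.sin (lam (cz i)) ∧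
      0 < 1 - Real.cos (lam (cz i))) := by
    rw [eventually_all]
    intro i
    have c1 : Continuous fun lam : V (Cd a b) =>
        2 - 2 * Real.cos (lam (cz i)) - lam (cz i) * Real.sin (lam (cz i)) := by
      have := hzc i
      fun_prop
    have c2 : Continuous fun lam : V (Cd a b) => 1 - Real.cos (lam (cz i)) := by
      have := hzc i
      fun_prop
    have c3 : Continuous fun lam : V (Cd a b) =>
        2 * Real.sin (lam (cz i) / 2) - lam (cz i) * Real.cos (lam (cz i) / 2) := by
      have := hzc i
      fun_prop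
    refine (((hxc i).continuousAt.eventually (lt_mem_nhds ?_)).and
      ((hzc i).continuousAt.eventually (lt_mem_nhds ?_))).and ?_
    · simp [Q]
    · simp only [Q, Sum.elim_inr, Sum.elim_inl]
      split_ifs <;> positivity
    by_cases hi : i = i₀
    · have h1 : ∀ᶠ lam : V (Cd a b) in 𝓝 Q, lam (cz i) < 4 * Real.pi ∧
          0 < 2 * Real.sin (lam (cz i) / 2) - lam (cz i) * Real.cos (lam (cz i) / 2) := by
        refine ((hzc i).continuousAt.eventually (gt_mem_nhds ?_)).and
          (c3.continuousAt.eventually (lt_mem_nhds ?_))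
        · beta_reduce
          rw [hi, hQz]
          linarith
        · beta_reduce
          rw [hi, hQz, mul_div_cancel_left₀ _ (two_ne_zero), Real.sin_pi, Real.cos_pi]
          linarith
      filter_upwards [h1] with lam h2
      exact ⟨fun _ => h2, fun h3 => absurd hi h3⟩
    · have hQi : Q (cz i) = Real.pi := by simp [Q, hi]
      have h1 : ∀ᶠ lam : V (Cd a b) in 𝓝 Q,
          0 < 2 - 2 * Real.cos (lam (cz i)) - lam (cz i) * Real.sin (lam (cz i)) ∧
          0 < 1 - Real.cos (lam (cz i)) := by
        refine (c1.continuousAt.eventually (lt_mem_nhds ?_)).and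
          (c2.continuousAt.eventually (lt_mem_nhds ?_))
        · beta_reduce
          rw [hQi, Real.cos_pi, Real.sin_pi]
          norm_num
        · beta_reduce
          rw [hQi, Real.cos_pi]
          norm_num
      filter_upwards [h1] with lam h2
      exact ⟨fun h3 => absurd h3 hi, fun _ => h2⟩
  refine ⟨_, hU, ?_⟩
  have key : ∀ lam : V (Cd a b), lam ∈ Conj (frame a b) 0 (expo a b) →
      (∀ i : Fin a, (0 < lam (cx i) ∧ 0 < lam (cz i)) ∧
      (i = i₀ → lam (cz i) < 4 * Real.pi ∧
        0 < 2 * Real.sin (lam (cz i) / 2) - lam (cz i) * Real.cos (lam (cz i) / 2)) ∧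
      (i ≠ i₀ → 0 < 2 - 2 * Real.cos (lam (cz i)) - lam (cz i) * Real.sin (lam (cz i)) ∧
      0 < 1 - Real.cos (lam (cz i)))) → lam (cz i₀) = 2 * Real.pi := by
    intro lam hC hL
    by_contra hcon
    apply hC.2
    apply bij
    intro i
    have hp : lam (cx i) ^ 2 + lam (cy i) ^ 2 ≠ 0 := by
      have := (hL i).1.1
      positivity
    by_cases hi : i = i₀
    · obtain ⟨h1, h2⟩ := (hL i).2.1 hi
      have h0 := (hL i).1.2
      rw [← hi] at hcon
      set θ := lam (cz i) with hθ
      have hs : Real.sin (θ / 2) ≠ 0 := by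
        intro h3
        obtain ⟨n, hn⟩ := Real.sin_eq_zero_iff.1 h3
        have h4 : (0 : ℝ) < n := by
          by_contra h5
          have : (n : ℝ) * Real.pi ≤ 0 := mul_nonpos_of_nonpos_of_nonneg (not_lt.1 h5) hpi.le
          linarith
        have h5 : (n : ℝ) < 2 := by
          by_contra h6
          have : 2 * Real.pi ≤ (n : ℝ) * Real.pi :=
            mul_le_mul_of_nonneg_right (not_lt.1 h6) hpi.le
          linarith
        have h6 : n = 1 := by
          have h7 : 0 < n := by exact_mod_cast h4
          have h8 : n < 2 := by exact_mod_cast h5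
          omega
        rw [h6] at hn
        apply hcon
        push_cast at hn
        linarith
      have e1 : Real.cos θ = 1 - 2 * Real.sin (θ / 2) ^ 2 := by
        have h3 := Real.cos_two_mul (θ / 2)
        rw [mul_div_cancel₀ θ (two_ne_zero)] at h3
        have h4 := Real.sin_sq_add_cos_sq (θ / 2)
        rw [h3]
        linarith
      have e2 : Real.sin θ = 2 * Real.sin (θ / 2) * Real.cos (θ / 2) := by
        have h3 := Real.sin_two_mul (θ / 2)
        rwa [mul_div_cancel₀ θ (two_ne_zero)] at h3
      refine ⟨h0.ne', ?_, ?_, hp⟩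
      · have e3 : 2 - 2 * Real.cos θ - θ * Real.sin θ =
            2 * Real.sin (θ / 2) * (2 * Real.sin (θ / 2) - θ * Real.cos (θ / 2)) := by
          rw [e1, e2]
          ring
        rw [e3]
        exact mul_ne_zero (mul_ne_zero two_ne_zero hs) h2.ne'
      · rw [e1]
        have : 1 - (1 - 2 * Real.sin (θ / 2) ^ 2) = 2 * Real.sin (θ / 2) ^ 2 := by ring
        rw [this]
        exact mul_ne_zero two_ne_zero (pow_ne_zero 2 hs)
    · obtain ⟨h1, h2⟩ := (hL i).2.2 hi
      exact ⟨(hL i).1.2.ne', h1.ne', h2.ne', hp⟩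
  intro v _ s t hs ht
  have h1 := key _ hs.1 hs.2
  have h2 := key _ ht.1 ht.2
  simp only [Pi.smul_apply, smul_eq_mul] at h1 h2
  have h3 : v (cz i₀) ≠ 0 := by
    intro h4
    rw [h4, mul_zero] at h1
    linarith
  have h4 : s = t := mul_right_cancel₀ h3 (h1.trans h2.symm)
  rw [h4]

end Pool.Agent.KS6_65.CL
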